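import Pool.Agent.L0h58.HY.Stm
import Pool.Agent.L0h75.HX.TOE

/-!
# HNK: large sets of rows of a random block Hankel matrix have almost full rank
-/

set_option autoImplicit false

namespace Pool.Agent.L0h21.HY

open Finset Pool.Agent.LLead.LT Pool.Agent.L0h58.HY Pool.Agent.L0h75.HX

lemma bpos_inj {K : ℕ} {d d' : Fin K} {c c' : Fin 6} (h : bpos K d c = bpos K d' c') :
    d = d' ∧ c = c' := by
  unfold bpos at h
  have hd := d.2
  have hd' := d'.2
  have h1 : ((c : ℕ) * K + (K - 1 - d)) / K = c := by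
    rw [mul_comm, Nat.mul_add_div (by omega), Nat.div_eq_of_lt (by omega), add_zero]
  have h2 : ((c' : ℕ) * K + (K - 1 - d')) / K = c' := by
    rw [mul_comm, Nat.mul_add_div (by omega), Nat.div_eq_of_lt (by omega), add_zero]
  rw [h] at h1
  have h3 : (c : ℕ) = c' := h1.symm.trans h2
  rw [h3] at h
  refine ⟨Fin.ext ?_, Fin.ext h3⟩
  omega

lemma bpos_lt {K : ℕ} (d : Fin K) (c : Fin 6) : bpos K d c < 6 * K := by
  unfold bpos
  have hd := d.2
  have hc := c.2
  have h1 : (c : ℕ) * K ≤ 5 * K := Nat.mul_le_mul_right _ (by omega)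
  omega

lemma split_inj {ρ x y x' y' : ℕ} (hy : y < ρ) (hy' : y' < ρ) (h : x * ρ + y = x' * ρ + y') :
    x = x' ∧ y = y' := by
  have h1 : (x * ρ + y) / ρ = x := by
    rw [mul_comm, Nat.mul_add_div (by omega), Nat.div_eq_of_lt hy, add_zero]
  have h2 : (x' * ρ + y') / ρ = x' := by
    rw [mul_comm, Nat.mul_add_div (by omega), Nat.div_eq_of_lt hy', add_zero]
  rw [h] at h1
  have h3 : x = x' := h1.symm.trans h2
  rw [h3] at h
  exact ⟨h3, by omega⟩

lemma blead_inj {K ρ : ℕ} : Function.Injective (blead : Fin K × Fin 6 × Fin ρ → ℕ) := by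
  rintro ⟨d, c, a⟩ ⟨d', c', a'⟩ h
  unfold blead at h
  simp only at h
  have ha := a.2
  have ha' := a'.2
  obtain ⟨h1, h2⟩ := split_inj (by omega) (by omega) h
  obtain ⟨h3, h4⟩ := bpos_inj h1
  have h5 : a = a' := Fin.ext (by omega)
  rw [h3, h4, h5]

lemma blead_lt {K ρ : ℕ} (p : Fin K × Fin 6 × Fin ρ) : blead p < 6 * K * ρ := by
  obtain ⟨d, c, a⟩ := p
  unfold blead
  simp only
  have h1 := bpos_lt d c
  have ha := a.2
  have h2 : (bpos K d c + 1) * ρ ≤ 6 * K * ρ := Nat.mul_le_mul_right _ h1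
  have h3 : (bpos K d c + 1) * ρ = bpos K d c * ρ + ρ := by ring
  omega

lemma bp_inj {η ρ i i' : ℕ} (h1 : 1 ≤ η) (h2 : η ≤ ρ) (h : bp η ρ i = bp η ρ i') : i = i' := by
  unfold bp at h
  have e1 := Nat.mod_lt i (show 0 < η by omega)
  have e2 := Nat.mod_lt i' (show 0 < η by omega)
  obtain ⟨h3, h4⟩ := split_inj (by omega) (by omega) h
  rw [← Nat.div_add_mod i η, ← Nat.div_add_mod i' η, h3, h4]

/-- the admissible pairs -/
def AdmB {n K ρ t : ℕ} (η m' : ℕ)
    (P : Finset (Fin n) × (Fin t → (Fin K × Fin 6 × Fin ρ → ZMod 2))) : Prop :=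
  P.1.card = m' ∧ ∃ b : Fin t → Fin K × Fin 6 × Fin ρ,
    (∀ j, P.2 j (b j) ≠ 0 ∧ ∀ b', blead (b j) < blead b' → P.2 j b' = 0) ∧
    (∀ j, η ≤ ((b j).2.2 : ℕ)) ∧
    (∀ i ∈ P.1, ∀ j, ∀ i' ∈ P.1, ∀ j', bp η ρ i + blead (b j) = bp η ρ i' + blead (b j') →
        i = i' ∧ j = j')

lemma card_small {K ρ : ℕ} (η : ℕ) :
    (univ.filter fun b : Fin K × Fin 6 × Fin ρ => ¬ η ≤ (b.2.2 : ℕ)).card ≤ 6 * K * η := by
  classical
  have h1 : (univ.filter fun b : Fin K × Fin 6 × Fin ρ => ¬ η ≤ (b.2.2 : ℕ)).card ≤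
      ((univ : Finset (Fin K)) ×ˢ (univ : Finset (Fin 6)) ×ˢ (range η)).card := by
    apply card_le_card_of_injOn (fun b => (b.1, b.2.1, (b.2.2 : ℕ)))
    · intro b hb
      rw [mem_coe, mem_filter] at hb
      rw [mem_coe, mem_product, mem_product]
      exact ⟨mem_univ _, mem_univ _, mem_range.2 (show (b.2.2 : ℕ) < η by omega)⟩
    · rintro ⟨d, c, a⟩ - ⟨d', c', a'⟩ - h
      simp only [Prod.mk.injEq] at h
      obtain ⟨h1, h2, h3⟩ := h
      rw [h1, h2, Fin.ext h3]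
  refine h1.trans (le_of_eq ?_)
  rw [card_product, card_product, card_univ, card_univ, card_range, Fintype.card_fin,
    Fintype.card_fin]
  ring

lemma leads_exists {ι : Type} [Fintype ι] (φ : ι → ℕ) (Z : Submodule (ZMod 2) (ι → ZMod 2)) :
    ∃ Λ : Finset ι, (∀ b ∈ Λ, ∃ Y ∈ Z, IsLead φ Y b) ∧ Module.finrank (ZMod 2) Z ≤ Λ.card := by
  classical
  have h := leads_card φ Z
  refine ⟨_, ?_, h⟩
  intro b hb
  exact (mem_filter.1 hb).2

lemma findB {n η K ρ m m' s t T : ℕ} {F : Type} [Field F] [Algebra (ZMod 2) F]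
    (e : (Fin ρ → ZMod 2) ≃ₗ[ZMod 2] F) (θ : F) (h1η : 1 ≤ η) (hηρ : η ≤ ρ) (ht : 1 ≤ t)
    (hT : 1 ≤ T) (hs : (t - 1) * (6 * K * ρ / T + 1) + 6 * K * η ≤ s) (hm : T * m' ≤ m) (S : ℕ → F)
    (A : Finset (Fin n)) (hA : m ≤ A.card)
    (hr : Module.finrank (ZMod 2) (Submodule.span (ZMod 2)
        ((bhank η e θ S : Fin n → (Fin K × Fin 6 × Fin ρ → ZMod 2)) '' A)) + s < K * (6 * ρ)) :
    ∃ P : Finset (Fin n) × (Fin t → (Fin K × Fin 6 × Fin ρ → ZMod 2)), AdmB η m' P ∧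
      ∀ i ∈ P.1, ∀ j, P.2 j ⬝ᵥ bhank η e θ S i = 0 := by
  classical
  have hcard : Fintype.card (Fin K × Fin 6 × Fin ρ) = K * (6 * ρ) := by
    rw [Fintype.card_prod, Fintype.card_prod, Fintype.card_fin, Fintype.card_fin, Fintype.card_fin]
  obtain ⟨Y0, hY0, hv⟩ := exists_Y (Submodule.span (ZMod 2)
    ((bhank η e θ S : Fin n → (Fin K × Fin 6 × Fin ρ → ZMod 2)) '' A)) s (by omega)
  set Z := Submodule.span (ZMod 2) (Set.range Y0) with hZ
  have hZr : Module.finrank (ZMod 2) Z = s + 1 := by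
    rw [hZ, finrank_span_eq_card hY0, Fintype.card_fin]
  have hZv : ∀ y ∈ Z, ∀ i ∈ A, y ⬝ᵥ bhank η e θ S i = 0 := by
    intro y hy i hi
    have hmem : bhank η e θ S i ∈ Submodule.span (ZMod 2)
        ((bhank η e θ S : Fin n → (Fin K × Fin 6 × Fin ρ → ZMod 2)) '' A) :=
      Submodule.subset_span ⟨i, hi, rfl⟩
    rw [hZ] at hy
    induction hy using Submodule.span_induction with
    | mem x hx =>
      obtain ⟨j, rfl⟩ := hx
      exact hv j _ hmem
    | zero => exact zero_dotProduct _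
    | add x y _ _ hx hy => rw [add_dotProduct, hx, hy, add_zero]
    | smul a x _ hx => rw [smul_dotProduct, hx, smul_zero]
  obtain ⟨Λ, hΛ, hΛc⟩ : ∃ Λ : Finset (Fin K × Fin 6 × Fin ρ),
      (∀ b ∈ Λ, ∃ Y ∈ Z, IsLead (blead : Fin K × Fin 6 × Fin ρ → ℕ) Y b) ∧ s + 1 ≤ Λ.card := by
    rw [← hZr]
    exact leads_exists _ Z
  have hΛs : s + 1 ≤ (Λ.filter fun b => η ≤ (b.2.2 : ℕ)).card + 6 * K * η := by
    have h1 := card_filter_add_card_filter_not (s := Λ) (fun b => η ≤ (b.2.2 : ℕ))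
    have h2 : (Λ.filter fun b => ¬ η ≤ (b.2.2 : ℕ)).card ≤ 6 * K * η :=
      (card_le_card (filter_subset_filter _ (subset_univ _))).trans (card_small η)
    omega
  have hmaps : ∀ b ∈ (Λ.filter fun b => η ≤ (b.2.2 : ℕ)), blead b / T ∈ range (6 * K * ρ / T + 1) := by
    intro b _
    rw [mem_range]
    exact Nat.lt_succ_of_le (Nat.div_le_div_right (blead_lt b).le)
  obtain ⟨q, -, hq⟩ := exists_lt_card_fiber_of_mul_lt_card_of_maps_to (n := t - 1) hmaps (by
    rw [card_range, mul_comm]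
    omega)
  obtain ⟨E⟩ := Function.Embedding.nonempty_of_card_le (α := Fin t)
    (β := ↥((Λ.filter fun b => η ≤ (b.2.2 : ℕ)).filter fun b => blead b / T = q)) (by
      rw [Fintype.card_fin, Fintype.card_coe]
      omega)
  have hmaps2 : ∀ i ∈ A, bp η ρ (i : ℕ) % T ∈ range T := fun i _ => mem_range.2 (Nat.mod_lt _ hT)
  obtain ⟨ρ', -, hρ⟩ := exists_le_card_fiber_of_mul_le_card_of_maps_to (n := m') hmaps2
    ⟨0, mem_range.2 hT⟩ (by
      rw [card_range]
      omega)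
  obtain ⟨A', hA', hA'c⟩ := exists_subset_card_eq hρ
  have hb : ∀ j : Fin t, ∃ Y ∈ Z, IsLead blead Y (E j : Fin K × Fin 6 × Fin ρ) := by
    intro j
    have h1 := (mem_filter.1 (E j).2).1
    exact hΛ _ (mem_filter.1 h1).1
  choose Y hYZ hYl using hb
  refine ⟨(A', Y), ⟨hA'c, fun j => (E j : Fin K × Fin 6 × Fin ρ), hYl, ?_, ?_⟩,
    fun i hi j => hZv _ (hYZ j) i (mem_filter.1 (hA' hi)).1⟩
  · intro j
    exact (mem_filter.1 (mem_filter.1 (E j).2).1).2
  intro i hi j i' hi' j' h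
  have g1 : bp η ρ (i : ℕ) % T = ρ' := (mem_filter.1 (hA' hi)).2
  have g2 : bp η ρ (i' : ℕ) % T = ρ' := (mem_filter.1 (hA' hi')).2
  have g3 : blead (E j : Fin K × Fin 6 × Fin ρ) / T = q := (mem_filter.1 (E j).2).2
  have g4 : blead (E j' : Fin K × Fin 6 × Fin ρ) / T = q := (mem_filter.1 (E j').2).2
  have g5 : blead (E j : Fin K × Fin 6 × Fin ρ) ≡ blead (E j' : Fin K × Fin 6 × Fin ρ) [MOD T] := by
    have h1 : bp η ρ (i : ℕ) ≡ bp η ρ (i' : ℕ) [MOD T] := g1.trans g2.symm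
    have h2 : bp η ρ (i : ℕ) + blead (E j : Fin K × Fin 6 × Fin ρ) ≡
        bp η ρ (i' : ℕ) + blead (E j' : Fin K × Fin 6 × Fin ρ) [MOD T] := by rw [h]
    exact Nat.ModEq.add_left_cancel h1 h2
  have g6 : blead (E j : Fin K × Fin 6 × Fin ρ) = blead (E j' : Fin K × Fin 6 × Fin ρ) := by
    have h1 := Nat.div_add_mod (blead (E j : Fin K × Fin 6 × Fin ρ)) T
    have h2 := Nat.div_add_mod (blead (E j' : Fin K × Fin 6 × Fin ρ)) T
    rw [g3] at h1
    rw [g4] at h2
    have h3 : blead (E j : Fin K × Fin 6 × Fin ρ) % T = blead (E j' : Fin K × Fin 6 × Fin ρ) % T := g5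
    rw [h3] at h1
    exact h1.symm.trans h2
  have g7 : j = j' := by
    have h1 : (E j : Fin K × Fin 6 × Fin ρ) = (E j' : Fin K × Fin 6 × Fin ρ) := blead_inj g6
    exact E.injective (Subtype.ext h1)
  refine ⟨?_, g7⟩
  rw [g6] at h
  exact Fin.ext (bp_inj h1η hηρ (Nat.add_right_cancel h))

open Classical in
lemma half {n η K ρ R : ℕ} (hB : S_HNKB) {F : Type} [Field F] [Fintype F] [Algebra (ZMod 2) F]
    (e : (Fin ρ → ZMod 2) ≃ₗ[ZMod 2] F) (θ : F) (hPB : PowBasis e θ) (h1η : 1 ≤ η) (hηρ : η ≤ ρ)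
    (hR : n / η + 6 * K < R) (A : Finset (Fin n)) (hA : 6 * K * ρ + 3 ≤ A.card) :
    (univ.filter fun S : Fin R → F => Module.finrank (ZMod 2) (Submodule.span (ZMod 2)
        ((bhank η e θ (extS S) : Fin n → (Fin K × Fin 6 × Fin ρ → ZMod 2)) '' A)) < K * (6 * ρ)).card
      * 8 ≤ Fintype.card F ^ R := by
  have hcard : Fintype.card (Fin K × Fin 6 × Fin ρ) = K * (6 * ρ) := by
    rw [Fintype.card_prod, Fintype.card_prod, Fintype.card_fin, Fintype.card_fin, Fintype.card_fin]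
  let Sol : (Fin K × Fin 6 × Fin ρ → ZMod 2) → Finset (Fin R → F) := fun Y =>
    univ.filter fun S : Fin R → F => ∀ i ∈ A, Y ⬝ᵥ bhank η e θ (extS S) i = 0
  let Idx : Finset (Fin K × Fin 6 × Fin ρ → ZMod 2) := univ.filter fun Y => Y ≠ 0
  set Bad := (univ.filter fun S : Fin R → F => Module.finrank (ZMod 2) (Submodule.span (ZMod 2)
        ((bhank η e θ (extS S) : Fin n → (Fin K × Fin 6 × Fin ρ → ZMod 2)) '' A)) < K * (6 * ρ))
    with hBad
  have hcov : Bad ⊆ Idx.biUnion Sol := by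
    intro S hS
    have hr := (mem_filter.1 hS).2
    obtain ⟨Y0, hY0, hv⟩ := exists_Y (Submodule.span (ZMod 2)
      ((bhank η e θ (extS S) : Fin n → (Fin K × Fin 6 × Fin ρ → ZMod 2)) '' A)) 0 (by omega)
    rw [mem_biUnion]
    refine ⟨Y0 0, mem_filter.2 ⟨mem_univ _, hY0.ne_zero 0⟩, mem_filter.2 ⟨mem_univ _, fun i hi => ?_⟩⟩
    exact hv 0 _ (Submodule.subset_span ⟨i, hi, rfl⟩)
  have hidx : Idx.card ≤ 2 ^ (6 * K * ρ) := by
    calc Idx.card ≤ (univ : Finset (Fin K × Fin 6 × Fin ρ → ZMod 2)).card :=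
          card_le_card (filter_subset _ _)
      _ = 2 ^ (6 * K * ρ) := by
          rw [card_univ, Fintype.card_fun, ZMod.card, hcard]
          congr 1
          ring
  have h8 : 2 ^ (6 * K * ρ) * 8 ≤ 2 ^ A.card := by
    calc 2 ^ (6 * K * ρ) * 8 = 2 ^ (6 * K * ρ + 3) := by rw [pow_add]; norm_num
      _ ≤ 2 ^ A.card := Nat.pow_le_pow_right (by norm_num) hA
  have hp : 0 < 2 ^ A.card := by positivity
  apply Nat.le_of_mul_le_mul_left _ hp
  calc 2 ^ A.card * (Bad.card * 8) = (Bad.card * 2 ^ A.card) * 8 := by ring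
    _ ≤ ((Idx.biUnion Sol).card * 2 ^ A.card) * 8 :=
        Nat.mul_le_mul_right _ (Nat.mul_le_mul_right _ (card_le_card hcov))
    _ ≤ ((∑ Y ∈ Idx, (Sol Y).card) * 2 ^ A.card) * 8 :=
        Nat.mul_le_mul_right _ (Nat.mul_le_mul_right _ card_biUnion_le)
    _ = (∑ Y ∈ Idx, (Sol Y).card * 2 ^ A.card) * 8 := by rw [sum_mul]
    _ ≤ (∑ Y ∈ Idx, Fintype.card F ^ R) * 8 := by
        refine Nat.mul_le_mul_right _ (sum_le_sum fun Y hY => ?_)
        exact hB n η K ρ R F e θ hPB h1η hηρ hR A Y (mem_filter.1 hY).2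
    _ = (Idx.card * 8) * Fintype.card F ^ R := by rw [sum_const, smul_eq_mul]; ring
    _ ≤ (2 ^ (6 * K * ρ) * 8) * Fintype.card F ^ R :=
        Nat.mul_le_mul_right _ (Nat.mul_le_mul_right _ hidx)
    _ ≤ 2 ^ A.card * Fintype.card F ^ R := Nat.mul_le_mul_right _ h8

open Classical in
lemma large {n η K ρ R m m' s t T : ℕ} (hA : S_HNKA) {F : Type} [Field F] [Fintype F]
    [Algebra (ZMod 2) F]
    (e : (Fin ρ → ZMod 2) ≃ₗ[ZMod 2] F) (θ : F) (hPB : PowBasis e θ) (h1η : 1 ≤ η) (hηρ : η ≤ ρ)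
    (ht : 1 ≤ t) (hT : 1 ≤ T)
    (hs : (t - 1) * (6 * K * ρ / T + 1) + 6 * K * η ≤ s) (hm : T * m' ≤ m)
    (hc : 4 * (n.choose m' * 2 ^ (t * (6 * K * ρ))) ≤ 2 ^ (t * m'))
    (hR : n / η + 6 * K < R) :
    (univ.filter fun S : Fin R → F => ∃ A : Finset (Fin n), m ≤ A.card ∧
      Module.finrank (ZMod 2) (Submodule.span (ZMod 2)
        ((bhank η e θ (extS S) : Fin n → (Fin K × Fin 6 × Fin ρ → ZMod 2)) '' A)) + s <
          K * (6 * ρ)).card * 4 ≤ Fintype.card F ^ R := by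
  have hcard : Fintype.card (Fin K × Fin 6 × Fin ρ) = K * (6 * ρ) := by
    rw [Fintype.card_prod, Fintype.card_prod, Fintype.card_fin, Fintype.card_fin, Fintype.card_fin]
  let Sol : Finset (Fin n) × (Fin t → (Fin K × Fin 6 × Fin ρ → ZMod 2)) → Finset (Fin R → F) :=
    fun P => univ.filter fun S : Fin R → F => ∀ i ∈ P.1, ∀ j, P.2 j ⬝ᵥ bhank η e θ (extS S) i = 0
  let Idx : Finset (Finset (Fin n) × (Fin t → (Fin K × Fin 6 × Fin ρ → ZMod 2))) :=
    univ.filter fun P => AdmB η m' P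
  set Bad := (univ.filter fun S : Fin R → F => ∃ A : Finset (Fin n), m ≤ A.card ∧
      Module.finrank (ZMod 2) (Submodule.span (ZMod 2)
        ((bhank η e θ (extS S) : Fin n → (Fin K × Fin 6 × Fin ρ → ZMod 2)) '' A)) + s <
          K * (6 * ρ)) with hBad
  have hcov : Bad ⊆ Idx.biUnion Sol := by
    intro S hS
    obtain ⟨A, hAm, hr⟩ := (mem_filter.1 hS).2
    obtain ⟨P, hP, hPr⟩ := findB (m' := m') e θ h1η hηρ ht hT hs hm (extS S) A hAm hr
    rw [mem_biUnion]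
    exact ⟨P, mem_filter.2 ⟨mem_univ _, hP⟩, mem_filter.2 ⟨mem_univ _, hPr⟩⟩
  have hidx : Idx.card ≤ n.choose m' * 2 ^ (t * (6 * K * ρ)) := by
    calc Idx.card ≤ (powersetCard m' (univ : Finset (Fin n)) ×ˢ
          (univ : Finset (Fin t → (Fin K × Fin 6 × Fin ρ → ZMod 2)))).card := by
          apply card_le_card
          intro P hP
          obtain ⟨-, hA, -⟩ := mem_filter.1 hP
          exact mem_product.2 ⟨mem_powersetCard.2 ⟨subset_univ _, hA⟩, mem_univ _⟩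
      _ = n.choose m' * 2 ^ (t * (6 * K * ρ)) := by
          rw [card_product, card_powersetCard, card_univ, card_univ, Fintype.card_fin,
            Fintype.card_fun, Fintype.card_fun, ZMod.card, Fintype.card_fin, hcard, ← pow_mul]
          congr 2
          ring
  have hp : 0 < 2 ^ (t * m') := by positivity
  apply Nat.le_of_mul_le_mul_left _ hp
  calc 2 ^ (t * m') * (Bad.card * 4) = (Bad.card * 2 ^ (t * m')) * 4 := by ring
    _ ≤ ((Idx.biUnion Sol).card * 2 ^ (t * m')) * 4 :=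
        Nat.mul_le_mul_right _ (Nat.mul_le_mul_right _ (card_le_card hcov))
    _ ≤ ((∑ P ∈ Idx, (Sol P).card) * 2 ^ (t * m')) * 4 :=
        Nat.mul_le_mul_right _ (Nat.mul_le_mul_right _ card_biUnion_le)
    _ = (∑ P ∈ Idx, (Sol P).card * 2 ^ (t * m')) * 4 := by rw [sum_mul]
    _ ≤ (∑ P ∈ Idx, Fintype.card F ^ R) * 4 := by
        refine Nat.mul_le_mul_right _ (sum_le_sum fun P hP => ?_)
        obtain ⟨h1, b, h2, h3, h4⟩ := (mem_filter.1 hP).2
        have h5 := hA n η K ρ R t F e θ hPB h1η hηρ hR P.1 P.2 b h2 h3 h4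
        rw [h1] at h5
        exact h5
    _ = (4 * Idx.card) * Fintype.card F ^ R := by rw [sum_const, smul_eq_mul]; ring
    _ ≤ (4 * (n.choose m' * 2 ^ (t * (6 * K * ρ)))) * Fintype.card F ^ R :=
        Nat.mul_le_mul_right _ (Nat.mul_le_mul_left _ hidx)
    _ ≤ 2 ^ (t * m') * Fintype.card F ^ R := Nat.mul_le_mul_right _ hc

theorem t_HNK (hA : S_HNKA) (hB : S_HNKB) : S_HNK := by
  classical
  intro n η K ρ m m' s t T F _ _ _ e θ hPB h1η hηρ ht hT hs hm hc hn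
  have hR : n / η + 6 * K < n / η + 6 * K + 1 := Nat.lt_succ_self _
  have b1 := large hA e θ hPB h1η hηρ ht hT hs hm hc hR
  have c1 : (univ.filter fun i : Fin n => (i : ℕ) < n / 2).card = n / 2 := by
    rw [Fin.card_filter_val_lt]
    omega
  have c2 : (univ.filter fun i : Fin n => ¬ (i : ℕ) < n / 2).card = n - n / 2 := by
    have h1 := card_filter_add_card_filter_not (s := (univ : Finset (Fin n)))
      (fun i => (i : ℕ) < n / 2)
    rw [c1, card_univ, Fintype.card_fin] at h1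
    omega
  have b2 := half hB e θ hPB h1η hηρ hR (univ.filter fun i : Fin n => (i : ℕ) < n / 2)
    (by rw [c1]; exact hn)
  have b3 := half hB e θ hPB h1η hηρ hR (univ.filter fun i : Fin n => ¬ (i : ℕ) < n / 2)
    (by rw [c2]; omega)
  by_contra hcon
  push Not at hcon
  set B1 := (univ.filter fun S : Fin (n / η + 6 * K + 1) → F => ∃ A : Finset (Fin n), m ≤ A.card ∧
      Module.finrank (ZMod 2) (Submodule.span (ZMod 2)
        ((bhank η e θ (extS S) : Fin n → (Fin K × Fin 6 × Fin ρ → ZMod 2)) '' A)) + s <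
          K * (6 * ρ)) with hB1
  set B2 := (univ.filter fun S : Fin (n / η + 6 * K + 1) → F =>
      Module.finrank (ZMod 2) (Submodule.span (ZMod 2)
        ((bhank η e θ (extS S) : Fin n → (Fin K × Fin 6 × Fin ρ → ZMod 2)) ''
          (univ.filter fun i : Fin n => (i : ℕ) < n / 2 : Finset (Fin n)))) < K * (6 * ρ)) with hB2
  set B3 := (univ.filter fun S : Fin (n / η + 6 * K + 1) → F =>
      Module.finrank (ZMod 2) (Submodule.span (ZMod 2)
        ((bhank η e θ (extS S) : Fin n → (Fin K × Fin 6 × Fin ρ → ZMod 2)) ''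
          (univ.filter fun i : Fin n => ¬ (i : ℕ) < n / 2 : Finset (Fin n)))) < K * (6 * ρ)) with hB3
  have hcov : (univ : Finset (Fin (n / η + 6 * K + 1) → F)) ⊆ (B1 ∪ B2) ∪ B3 := by
    intro S _
    rw [mem_union, mem_union]
    by_contra h0
    push Not at h0
    obtain ⟨⟨h1, h2⟩, h3⟩ := h0
    have g1 : ∀ A : Finset (Fin n), m ≤ A.card → K * (6 * ρ) ≤ Module.finrank (ZMod 2)
        (Submodule.span (ZMod 2)
          ((bhank η e θ (extS S) : Fin n → (Fin K × Fin 6 × Fin ρ → ZMod 2)) '' A)) + s := by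
      intro A hAm
      by_contra h4
      exact h1 (mem_filter.2 ⟨mem_univ _, A, hAm, by omega⟩)
    have g2 : K * (6 * ρ) ≤ Module.finrank (ZMod 2) (Submodule.span (ZMod 2)
        ((bhank η e θ (extS S) : Fin n → (Fin K × Fin 6 × Fin ρ → ZMod 2)) ''
          {i | (i : ℕ) < n / 2})) := by
      by_contra h4
      apply h2
      refine mem_filter.2 ⟨mem_univ _, ?_⟩
      have h5 : ((univ.filter fun i : Fin n => (i : ℕ) < n / 2 : Finset (Fin n)) : Set (Fin n)) =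
          {i : Fin n | (i : ℕ) < n / 2} := by
        ext i
        simp
      rw [h5]
      omega
    have g3 : Module.finrank (ZMod 2) (Submodule.span (ZMod 2)
        ((bhank η e θ (extS S) : Fin n → (Fin K × Fin 6 × Fin ρ → ZMod 2)) ''
          {i | ¬ (i : ℕ) < n / 2})) < K * (6 * ρ) := by
      have := hcon (extS S) g1 g2
      exact this
    apply h3
    refine mem_filter.2 ⟨mem_univ _, ?_⟩
    have h5 : ((univ.filter fun i : Fin n => ¬ (i : ℕ) < n / 2 : Finset (Fin n)) : Set (Fin n)) =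
        {i : Fin n | ¬ (i : ℕ) < n / 2} := by
      ext i
      simp
    rw [h5]
    exact g3
  have hpos : 0 < Fintype.card F ^ (n / η + 6 * K + 1) := by
    have : 0 < Fintype.card F := Fintype.card_pos
    positivity
  have htot : Fintype.card F ^ (n / η + 6 * K + 1) ≤ B1.card + B2.card + B3.card := by
    calc Fintype.card F ^ (n / η + 6 * K + 1)
        = (univ : Finset (Fin (n / η + 6 * K + 1) → F)).card := by
          rw [card_univ, Fintype.card_fun, Fintype.card_fin]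
      _ ≤ ((B1 ∪ B2) ∪ B3).card := card_le_card hcov
      _ ≤ (B1 ∪ B2).card + B3.card := card_union_le _ _
      _ ≤ B1.card + B2.card + B3.card := Nat.add_le_add_right (card_union_le _ _) _
  omega

end Pool.Agent.L0h21.HY
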